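import Pool.Agent.Helper49.QI.Defs
import Pool.Agent.Helper11.QU.P3

/-!
# QI, pieces C1 and C2
-/

set_option autoImplicit false

namespace Pool.Agent.Helper11.QI

open Matrix Pool.Agent.Helper49.QU Pool.Agent.Helper49.QI Pool.Agent.Helper11.QU

/-- a prime element is the kernel of a homomorphism to its residue field -/
theorem exists_field' {R : Type} [CommRing R] (P : R) (hP : Prime P) (k : Type) [Field k]
    [Algebra k R] : ∃ (F : Type) (_ : Field F) (_ : Algebra k F) (ρ : R →ₐ[k] F),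
      (∀ x, ρ x = 0 ↔ P ∣ x) ∧ ∀ x : F, ∃ a b : R, ρ b ≠ 0 ∧ x * ρ b = ρ a := by
  have h1 : (Ideal.span ({P} : Set R)).IsPrime := (Ideal.span_singleton_prime hP.ne_zero).2 hP
  refine ⟨FractionRing (R ⧸ Ideal.span ({P} : Set R)), inferInstance, inferInstance,
    (IsScalarTower.toAlgHom k (R ⧸ Ideal.span ({P} : Set R))
      (FractionRing (R ⧸ Ideal.span ({P} : Set R)))).comp
      (Ideal.Quotient.mkₐ k (Ideal.span ({P} : Set R))), fun x => ?_, fun x => ?_⟩
  · rw [AlgHom.comp_apply, IsScalarTower.coe_toAlgHom', Ideal.Quotient.mkₐ_eq_mk,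
      FaithfulSMul.algebraMap_eq_zero_iff, Ideal.Quotient.eq_zero_iff_mem,
      Ideal.mem_span_singleton]
  · obtain ⟨⟨a, b⟩, hab⟩ := IsLocalization.surj
      (nonZeroDivisors (R ⧸ Ideal.span ({P} : Set R))) x
    obtain ⟨a', ha'⟩ := Ideal.Quotient.mk_surjective a
    obtain ⟨b', hb'⟩ := Ideal.Quotient.mk_surjective (b : R ⧸ Ideal.span ({P} : Set R))
    refine ⟨a', b', ?_, ?_⟩
    · rw [AlgHom.comp_apply, IsScalarTower.coe_toAlgHom', Ideal.Quotient.mkₐ_eq_mk, hb', Ne,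
        FaithfulSMul.algebraMap_eq_zero_iff]
      exact nonZeroDivisors.coe_ne_zero b
    · rw [AlgHom.comp_apply, AlgHom.comp_apply, IsScalarTower.coe_toAlgHom',
        Ideal.Quotient.mkₐ_eq_mk, ha', hb']
      exact hab

theorem bil_smul_smul {R : Type*} [CommRing R] {N : ℕ} (B : Matrix (Fin N) (Fin N) R)
    (v w : Fin N → R) (l : R) :
    bil B (fun j => l * v j) (fun j => l * w j) = l ^ 2 * bil B v w := by
  unfold bil
  rw [Finset.mul_sum]
  refine Finset.sum_congr rfl fun i _ => ?_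
  rw [Finset.mul_sum]
  refine Finset.sum_congr rfl fun j _ => ?_
  ring

/-- **C1.** rank at least three modulo `P` -/
theorem splitQ_of_minor {k : Type} [Field k] [CharZero k] {n N : ℕ}
    (B : Matrix (Fin N) (Fin N) (MvPolynomial (Fin n) k)) (hB : B.IsSymm)
    (P : MvPolynomial (Fin n) k) (hP : Irreducible P) (h : ¬ Minors B P) : SplitQ B P := by
  classical
  unfold Minors at h
  push Not at h
  obtain ⟨f, g, hfg⟩ := h
  obtain ⟨F, iF, aF, ρ, hρ, hfr⟩ := exists_field' P hP.prime k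
  have hc : CharZero F := charZero_of_injective_algebraMap (algebraMap k F).injective
  have hsym : (B.map ρ).IsSymm := hB.map ρ
  have hdet : ((B.map ρ).submatrix f g).det ≠ 0 := by
    have h1 : ((B.map ρ).submatrix f g).det = ρ (B.submatrix f g).det := by
      rw [AlgHom.map_det]
      rfl
    rw [h1]
    exact fun h2 => hfg ((hρ _).1 h2)
  obtain ⟨V, hV1, hV2⟩ := exists_three (B.map ρ) hsym f g hdet
  choose a b hb hab using fun p : Fin 3 × Fin N => hfr (V p.1 p.2)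
  set l : F := ∏ p : Fin 3 × Fin N, ρ (b p) with hl
  have hl0 : l ≠ 0 := Finset.prod_ne_zero_iff.2 fun p _ => hb p
  let w : Fin 3 → Fin N → MvPolynomial (Fin n) k := fun c j =>
    a (c, j) * ∏ p ∈ Finset.univ.erase (c, j), b p
  have hw : ∀ c j, ρ (w c j) = l * V c j := by
    intro c j
    show ρ (a (c, j) * ∏ p ∈ Finset.univ.erase (c, j), b p) = _
    rw [map_mul, map_prod, ← hab (c, j), hl,
      ← Finset.mul_prod_erase Finset.univ (fun p => ρ (b p)) (Finset.mem_univ (c, j))]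
    ring
  have hbil : ∀ c d, ρ (bil B (w c) (w d)) = l ^ 2 * bil (B.map ρ) (V c) (V d) := by
    intro c d
    have h1 := map_bil (ρ : MvPolynomial (Fin n) k →+* F) B (w c) (w d)
    have h2 : ρ (bil B (w c) (w d)) = bil (B.map ρ) (fun j => ρ (w c j)) (fun j => ρ (w d j)) := h1
    rw [h2]
    simp only [hw]
    exact bil_smul_smul _ _ _ l
  refine Or.inl ⟨w, 0, Matrix.of fun c d => bil B (w c) (w d), fun c d => ?_, fun hdvd => ?_⟩
  · rw [pow_zero, one_mul, Matrix.of_apply]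
  · have h3 := (hρ _).2 hdvd
    have h4 : ρ (Matrix.of fun c d => bil B (w c) (w d)).det =
        (Matrix.diagonal fun c => l ^ 2 * bil (B.map ρ) (V c) (V c)).det := by
      rw [AlgHom.map_det]
      congr 1
      ext c d
      show ρ (bil B (w c) (w d)) = _
      rw [hbil, Matrix.diagonal_apply]
      split_ifs with hcd
      · rw [hcd]
      · rw [hV2 c d hcd, mul_zero]
    rw [h4, Matrix.det_diagonal] at h3
    exact Finset.prod_ne_zero_iff.2
      (fun c _ => mul_ne_zero (pow_ne_zero _ hl0) (hV1 c)) h3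

/-- **C2.** -/
theorem splitQ_of_associated {R : Type*} [CommRing R] {N : ℕ} (B : Matrix (Fin N) (Fin N) R)
    {P Q : R} (hPQ : Associated P Q) (h : SplitQ B P) : SplitQ B Q := by
  obtain ⟨u, rfl⟩ := hPQ
  have hdvd : ∀ x : R, P * u ∣ x ↔ P ∣ x := fun x => Units.mul_right_dvd
  have hui : ∀ (e m : ℕ) (x : R), P ∣ ((u⁻¹ : Rˣ) : R) ^ (e * m) * x ↔ P ∣ x := by
    intro e m x
    have h1 : ((u⁻¹ : Rˣ) : R) ^ (e * m) = (((u⁻¹) ^ (e * m) : Rˣ) : R) := by
      rw [Units.val_pow_eq_pow_val]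
    rw [h1]
    exact Units.dvd_mul_left
  have hpow : ∀ e : ℕ, (u : R) ^ e * ((u⁻¹ : Rˣ) : R) ^ e = 1 := by
    intro e
    rw [← mul_pow, Units.mul_inv, one_pow]
  rcases h with ⟨w, e, G, hG, hd⟩ | ⟨w, e, G, g, h, hG, hd, hg, hgh⟩
  · refine Or.inl ⟨w, e, ((u⁻¹ : Rˣ) : R) ^ e • G, fun c d => ?_, ?_⟩
    · rw [hG, Matrix.smul_apply, smul_eq_mul, mul_pow]
      calc P ^ e * G c d = P ^ e * ((u : R) ^ e * ((u⁻¹ : Rˣ) : R) ^ e) * G c d := by
            rw [hpow, mul_one]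
        _ = _ := by ring
    · rw [Matrix.det_smul, Fintype.card_fin, ← pow_mul, hdvd, hui]
      exact hd
  · refine Or.inr ⟨w, e, ((u⁻¹ : Rˣ) : R) ^ e • G, (u : R) ^ e * g, h, fun c d => ?_, ?_, ?_, ?_⟩
    · rw [hG, Matrix.smul_apply, smul_eq_mul, mul_pow]
      calc P ^ e * G c d = P ^ e * ((u : R) ^ e * ((u⁻¹ : Rˣ) : R) ^ e) * G c d := by
            rw [hpow, mul_one]
        _ = _ := by ring
    · rw [Matrix.det_smul, Fintype.card_fin, ← pow_mul, hdvd, hui]
      exact hd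
    · rw [hdvd]
      have h1 : (u : R) ^ e = ((u ^ e : Rˣ) : R) := by rw [Units.val_pow_eq_pow_val]
      rw [h1, Units.dvd_mul_left]
      exact hg
    · rw [hdvd, Matrix.det_smul, Fintype.card_fin]
      have h2 : ((u : R) ^ e * g) ^ 2 * ((((u⁻¹ : Rˣ) : R) ^ e) ^ 2 * G.det) + h ^ 2 =
          ((u : R) ^ e * ((u⁻¹ : Rˣ) : R) ^ e) ^ 2 * (g ^ 2 * G.det) + h ^ 2 := by ring
      rw [h2, hpow, one_pow, one_mul]
      exact hgh

end Pool.Agent.Helper11.QI
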